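import Mathlib

namespace Pool.Agent.Results.MP_69260a_co.DistCospectral

/-- The distance matrix of a graph: entry `(i, j)` is the length of a shortest path. -/
noncomputable def distMatrix {V : Type} (G : SimpleGraph V) : Matrix V V ℝ :=
  Matrix.of fun i j => (G.dist i j : ℝ)

theorem dist_eq {V : Type} {G : SimpleGraph V} {D : V → V → ℕ} (h0 : ∀ i, D i i = 0)
    (h1 : ∀ i j k, G.Adj i j → D i k ≤ D j k + 1)
    (h2 : ∀ i k, i ≠ k → ∃ j, G.Adj i j ∧ D i k = D j k + 1) :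
    ∀ i k, G.Reachable i k ∧ G.dist i k = D i k := by
  have up : ∀ d i k, D i k = d → ∃ p : G.Walk i k, p.length = d := by
    intro d
    induction d with
    | zero =>
      intro i k h
      by_cases hik : i = k
      · subst hik; exact ⟨SimpleGraph.Walk.nil, rfl⟩
      · obtain ⟨j, _, hj⟩ := h2 i k hik
        omega
    | succ d ih =>
      intro i k h
      have hik : i ≠ k := by
        rintro rfl
        rw [h0] at h; omega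
      obtain ⟨j, hj, hj2⟩ := h2 i k hik
      obtain ⟨p, hp⟩ := ih j k (by omega)
      exact ⟨SimpleGraph.Walk.cons hj p, by simp [hp]⟩
  have low : ∀ i k (p : G.Walk i k), D i k ≤ p.length := by
    intro i k p
    induction p with
    | nil => simp [h0]
    | cons h p ih =>
      rename_i x y z
      have := h1 x y z h
      rw [SimpleGraph.Walk.length_cons]
      exact this.trans (by omega)
  intro i k
  obtain ⟨p, hp⟩ := up _ i k rfl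
  have hr : G.Reachable i k := ⟨p⟩
  refine ⟨hr, le_antisymm ?_ ?_⟩
  · rw [← hp]; exact SimpleGraph.dist_le p
  · obtain ⟨q, hq⟩ := hr.exists_walk_length_eq_dist
    rw [← hq]; exact low i k q

/-- class of a vertex in the first (non-bipartite) graph -/
def cls1 (i : Fin 20) : ℕ := ([0, 0, 0, 0, 0, 0, 0, 0, 1, 1, 2, 2, 2, 2, 2, 2, 2, 2, 3, 4] : List ℕ).getD i.val 0
/-- class of a vertex in the second (bipartite) graph -/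
def cls2 (i : Fin 20) : ℕ := ([0, 0, 0, 1, 2, 2, 2, 2, 2, 2, 2, 2, 2, 2, 2, 2, 2, 2, 3, 3] : List ℕ).getD i.val 0

/-- distances between classes, first graph (the house graph) -/
def F1 (a b : ℕ) : ℕ := (([[2, 2, 2, 1, 1], [2, 2, 1, 2, 1], [2, 1, 2, 1, 2], [1, 2, 1, 2, 1], [1, 1, 2, 1, 2]] : List (List ℕ)).getD a []).getD b 0
/-- distances between classes, second graph (a path on four vertices) -/
def F2 (a b : ℕ) : ℕ := (([[2, 3, 2, 1], [3, 2, 1, 2], [2, 1, 2, 1], [1, 2, 1, 2]] : List (List ℕ)).getD a []).getD b 0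

def D1 (i j : Fin 20) : ℕ := if i = j then 0 else F1 (cls1 i) (cls1 j)
def D2 (i j : Fin 20) : ℕ := if i = j then 0 else F2 (cls2 i) (cls2 j)

def G1 : SimpleGraph (Fin 20) where
  Adj i j := D1 i j = 1
  symm := ⟨by decide +kernel⟩
  loopless := ⟨by decide +kernel⟩

def G2 : SimpleGraph (Fin 20) where
  Adj i j := D2 i j = 1
  symm := ⟨by decide +kernel⟩
  loopless := ⟨by decide +kernel⟩

theorem dist1 : ∀ i k, G1.Reachable i k ∧ G1.dist i k = D1 i k := by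
  refine dist_eq ?_ ?_ ?_
  · decide +kernel
  · have : ∀ i j k : Fin 20, D1 i j = 1 → D1 i k ≤ D1 j k + 1 := by decide +kernel
    exact this
  · have : ∀ i k : Fin 20, i ≠ k → ∃ j, D1 i j = 1 ∧ D1 i k = D1 j k + 1 := by decide +kernel
    exact this

theorem dist2 : ∀ i k, G2.Reachable i k ∧ G2.dist i k = D2 i k := by
  refine dist_eq ?_ ?_ ?_
  · decide +kernel
  · have : ∀ i j k : Fin 20, D2 i j = 1 → D2 i k ≤ D2 j k + 1 := by decide +kernel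
    exact this
  · have : ∀ i k : Fin 20, i ≠ k → ∃ j, D2 i j = 1 ∧ D2 i k = D2 j k + 1 := by decide +kernel
    exact this

theorem conn1 : G1.Connected := { preconnected := fun i k => (dist1 i k).1, nonempty := ⟨0⟩ }
theorem conn2 : G2.Connected := { preconnected := fun i k => (dist2 i k).1, nonempty := ⟨0⟩ }

theorem bip2 : G2.IsBipartite := by
  refine ⟨SimpleGraph.Coloring.mk
    (fun i => (if cls2 i = 0 ∨ cls2 i = 2 then (0 : Fin 2) else 1)) ?_⟩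
  have : ∀ i j : Fin 20, D2 i j = 1 → (if cls2 i = 0 ∨ cls2 i = 2 then (0 : Fin 2) else 1) ≠
      (if cls2 j = 0 ∨ cls2 j = 2 then (0 : Fin 2) else 1) := by decide +kernel
  intro i j h
  exact this i j h

theorem nbip1 : ¬ G1.IsBipartite := by
  rintro ⟨C⟩
  have h1 : G1.Adj 0 18 := by show D1 0 18 = 1; decide +kernel
  have h2 : G1.Adj 0 19 := by show D1 0 19 = 1; decide +kernel
  have h3 : G1.Adj 18 19 := by show D1 18 19 = 1; decide +kernel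
  have h1 := C.valid h1
  have h2 := C.valid h2
  have h3 := C.valid h3
  generalize C 0 = a at *
  generalize C 18 = b at *
  generalize C 19 = c at *
  revert a b c
  decide

/-! ### cospectrality -/

def mat (L : List (List ℤ)) : Matrix (Fin 20) (Fin 20) ℤ :=
  Matrix.of fun i j => (L.getD i.val []).getD j.val 0

def Cm : List (List ℤ) :=
 [[4,3,28,2,0,0,0,0,0,0,0,0,0,0,0,0,0,0,0,0],
  [9,0,14,4,0,0,0,0,0,0,0,0,0,0,0,0,0,0,0,0],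
  [6,1,26,2,0,0,0,0,0,0,0,0,0,0,0,0,0,0,0,0],
  [3,2,14,2,0,0,0,0,0,0,0,0,0,0,0,0,0,0,0,0],
  [0,0,0,0,-2,0,0,0,0,0,0,0,0,0,0,0,0,0,0,0],
  [0,0,0,0,0,-2,0,0,0,0,0,0,0,0,0,0,0,0,0,0],
  [0,0,0,0,0,0,-2,0,0,0,0,0,0,0,0,0,0,0,0,0],
  [0,0,0,0,0,0,0,-2,0,0,0,0,0,0,0,0,0,0,0,0],
  [0,0,0,0,0,0,0,0,-2,0,0,0,0,0,0,0,0,0,0,0],
  [0,0,0,0,0,0,0,0,0,-2,0,0,0,0,0,0,0,0,0,0],
  [0,0,0,0,0,0,0,0,0,0,-2,0,0,0,0,0,0,0,0,0],
  [0,0,0,0,0,0,0,0,0,0,0,-2,0,0,0,0,0,0,0,0],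
  [0,0,0,0,0,0,0,0,0,0,0,0,-2,0,0,0,0,0,0,0],
  [0,0,0,0,0,0,0,0,0,0,0,0,0,-2,0,0,0,0,0,0],
  [0,0,0,0,0,0,0,0,0,0,0,0,0,0,-2,0,0,0,0,0],
  [0,0,0,0,0,0,0,0,0,0,0,0,0,0,0,-2,0,0,0,0],
  [0,0,0,0,0,0,0,0,0,0,0,0,0,0,0,0,-2,0,0,0],
  [0,0,0,0,0,0,0,0,0,0,0,0,0,0,0,0,0,-2,0,0],
  [0,0,0,0,0,0,0,0,0,0,0,0,0,0,0,0,0,0,-2,0],
  [0,0,0,0,0,0,0,0,0,0,0,0,0,0,0,0,0,0,0,-2]]
def B1 : List (List ℤ) :=
 [[-3,2,14,1,1,0,0,0,0,0,0,0,0,0,0,0,0,0,0,0],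
  [-3,2,14,1,-1,1,0,0,0,0,0,0,0,0,0,0,0,0,0,0],
  [-3,2,14,1,0,-1,1,0,0,0,0,0,0,0,0,0,0,0,0,0],
  [-3,2,14,1,0,0,-1,1,0,0,0,0,0,0,0,0,0,0,0,0],
  [-3,2,14,1,0,0,0,-1,1,0,0,0,0,0,0,0,0,0,0,0],
  [-3,2,14,1,0,0,0,0,-1,1,0,0,0,0,0,0,0,0,0,0],
  [-3,2,14,1,0,0,0,0,0,-1,1,0,0,0,0,0,0,0,0,0],
  [-3,2,14,1,0,0,0,0,0,0,-1,0,0,0,0,0,0,0,0,0],
  [9,-4,4,0,0,0,0,0,0,0,0,1,0,0,0,0,0,0,0,4],
  [9,-4,4,0,0,0,0,0,0,0,0,-1,0,0,0,0,0,0,0,4],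
  [6,-1,6,2,0,0,0,0,0,0,0,0,1,0,0,0,0,0,0,-1],
  [6,-1,6,2,0,0,0,0,0,0,0,0,-1,1,0,0,0,0,0,-1],
  [6,-1,6,2,0,0,0,0,0,0,0,0,0,-1,1,0,0,0,0,-1],
  [6,-1,6,2,0,0,0,0,0,0,0,0,0,0,-1,1,0,0,0,-1],
  [6,-1,6,2,0,0,0,0,0,0,0,0,0,0,0,-1,1,0,0,-1],
  [6,-1,6,2,0,0,0,0,0,0,0,0,0,0,0,0,-1,1,0,-1],
  [6,-1,6,2,0,0,0,0,0,0,0,0,0,0,0,0,0,-1,1,-1],
  [6,-1,6,2,0,0,0,0,0,0,0,0,0,0,0,0,0,0,-1,-1],
  [3,4,6,-8,0,0,0,0,0,0,0,0,0,0,0,0,0,0,0,-8],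
  [0,7,8,-6,0,0,0,0,0,0,0,0,0,0,0,0,0,0,0,8]]
def T1 : List (List ℤ) :=
 [[-280,-280,-280,-280,-280,-280,-280,-280,-252,-252,532,532,532,532,532,532,532,532,112,896],
  [-378,-378,-378,-378,-378,-378,-378,-378,-2912,-2912,952,952,952,952,952,952,952,952,-784,3080],
  [252,252,252,252,252,252,252,252,494,494,-78,-78,-78,-78,-78,-78,-78,-78,300,-272],
  [-105,-105,-105,-105,-105,-105,-105,-105,-1848,-1848,784,784,784,784,784,784,784,784,-2296,336],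
  [24549,-3507,-3507,-3507,-3507,-3507,-3507,-3507,0,0,0,0,0,0,0,0,0,0,0,0],
  [21042,21042,-7014,-7014,-7014,-7014,-7014,-7014,0,0,0,0,0,0,0,0,0,0,0,0],
  [17535,17535,17535,-10521,-10521,-10521,-10521,-10521,0,0,0,0,0,0,0,0,0,0,0,0],
  [14028,14028,14028,14028,-14028,-14028,-14028,-14028,0,0,0,0,0,0,0,0,0,0,0,0],
  [10521,10521,10521,10521,10521,-17535,-17535,-17535,0,0,0,0,0,0,0,0,0,0,0,0],
  [7014,7014,7014,7014,7014,7014,-21042,-21042,0,0,0,0,0,0,0,0,0,0,0,0],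
  [3507,3507,3507,3507,3507,3507,3507,-24549,0,0,0,0,0,0,0,0,0,0,0,0],
  [0,0,0,0,0,0,0,0,14028,-14028,0,0,0,0,0,0,0,0,0,0],
  [0,0,0,0,0,0,0,0,0,0,24549,-3507,-3507,-3507,-3507,-3507,-3507,-3507,0,0],
  [0,0,0,0,0,0,0,0,0,0,21042,21042,-7014,-7014,-7014,-7014,-7014,-7014,0,0],
  [0,0,0,0,0,0,0,0,0,0,17535,17535,17535,-10521,-10521,-10521,-10521,-10521,0,0],
  [0,0,0,0,0,0,0,0,0,0,14028,14028,14028,14028,-14028,-14028,-14028,-14028,0,0],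
  [0,0,0,0,0,0,0,0,0,0,10521,10521,10521,10521,10521,-17535,-17535,-17535,0,0],
  [0,0,0,0,0,0,0,0,0,0,7014,7014,7014,7014,7014,7014,-21042,-21042,0,0],
  [0,0,0,0,0,0,0,0,0,0,3507,3507,3507,3507,3507,3507,3507,-24549,0,0],
  [0,0,0,0,0,0,0,0,668,668,-167,-167,-167,-167,-167,-167,-167,-167,-1336,1336]]
def B2 : List (List ℤ) :=
 [[1,0,0,0,1,0,0,0,0,0,0,0,0,0,0,0,0,0,0,0],
  [1,0,0,0,-1,1,0,0,0,0,0,0,0,0,0,0,0,0,0,0],
  [1,0,0,0,0,-1,0,0,0,0,0,0,0,0,0,0,0,0,0,0],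
  [0,1,0,0,0,0,0,0,0,0,0,0,0,0,0,0,0,0,0,0],
  [0,0,1,0,0,0,1,0,0,0,0,0,0,0,0,0,0,0,0,0],
  [0,0,1,0,0,0,-1,1,0,0,0,0,0,0,0,0,0,0,0,0],
  [0,0,1,0,0,0,0,-1,1,0,0,0,0,0,0,0,0,0,0,0],
  [0,0,1,0,0,0,0,0,-1,1,0,0,0,0,0,0,0,0,0,0],
  [0,0,1,0,0,0,0,0,0,-1,1,0,0,0,0,0,0,0,0,0],
  [0,0,1,0,0,0,0,0,0,0,-1,1,0,0,0,0,0,0,0,0],
  [0,0,1,0,0,0,0,0,0,0,0,-1,1,0,0,0,0,0,0,0],
  [0,0,1,0,0,0,0,0,0,0,0,0,-1,1,0,0,0,0,0,0],
  [0,0,1,0,0,0,0,0,0,0,0,0,0,-1,1,0,0,0,0,0],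
  [0,0,1,0,0,0,0,0,0,0,0,0,0,0,-1,1,0,0,0,0],
  [0,0,1,0,0,0,0,0,0,0,0,0,0,0,0,-1,1,0,0,0],
  [0,0,1,0,0,0,0,0,0,0,0,0,0,0,0,0,-1,1,0,0],
  [0,0,1,0,0,0,0,0,0,0,0,0,0,0,0,0,0,-1,1,0],
  [0,0,1,0,0,0,0,0,0,0,0,0,0,0,0,0,0,0,-1,0],
  [0,0,0,1,0,0,0,0,0,0,0,0,0,0,0,0,0,0,0,1],
  [0,0,0,1,0,0,0,0,0,0,0,0,0,0,0,0,0,0,0,-1]]
def T2 : List (List ℤ) :=
 [[14,14,14,0,0,0,0,0,0,0,0,0,0,0,0,0,0,0,0,0],
  [0,0,0,42,0,0,0,0,0,0,0,0,0,0,0,0,0,0,0,0],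
  [0,0,0,0,3,3,3,3,3,3,3,3,3,3,3,3,3,3,0,0],
  [0,0,0,0,0,0,0,0,0,0,0,0,0,0,0,0,0,0,21,21],
  [28,-14,-14,0,0,0,0,0,0,0,0,0,0,0,0,0,0,0,0,0],
  [14,14,-28,0,0,0,0,0,0,0,0,0,0,0,0,0,0,0,0,0],
  [0,0,0,0,39,-3,-3,-3,-3,-3,-3,-3,-3,-3,-3,-3,-3,-3,0,0],
  [0,0,0,0,36,36,-6,-6,-6,-6,-6,-6,-6,-6,-6,-6,-6,-6,0,0],
  [0,0,0,0,33,33,33,-9,-9,-9,-9,-9,-9,-9,-9,-9,-9,-9,0,0],
  [0,0,0,0,30,30,30,30,-12,-12,-12,-12,-12,-12,-12,-12,-12,-12,0,0],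
  [0,0,0,0,27,27,27,27,27,-15,-15,-15,-15,-15,-15,-15,-15,-15,0,0],
  [0,0,0,0,24,24,24,24,24,24,-18,-18,-18,-18,-18,-18,-18,-18,0,0],
  [0,0,0,0,21,21,21,21,21,21,21,-21,-21,-21,-21,-21,-21,-21,0,0],
  [0,0,0,0,18,18,18,18,18,18,18,18,-24,-24,-24,-24,-24,-24,0,0],
  [0,0,0,0,15,15,15,15,15,15,15,15,15,-27,-27,-27,-27,-27,0,0],
  [0,0,0,0,12,12,12,12,12,12,12,12,12,12,-30,-30,-30,-30,0,0],
  [0,0,0,0,9,9,9,9,9,9,9,9,9,9,9,-33,-33,-33,0,0],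
  [0,0,0,0,6,6,6,6,6,6,6,6,6,6,6,6,-36,-36,0,0],
  [0,0,0,0,3,3,3,3,3,3,3,3,3,3,3,3,3,-39,0,0],
  [0,0,0,0,0,0,0,0,0,0,0,0,0,0,0,0,0,0,21,-21]]

theorem charpoly_of {n : Type} [Fintype n] [DecidableEq n] (D B T C : Matrix n n ℤ) (c : ℤ)
    (hc : c ≠ 0) (h1 : D * B = B * C) (h2 : T * B = c • (1 : Matrix n n ℤ)) :
    (D.map (Int.cast : ℤ → ℝ)).charpoly = (C.map (Int.cast : ℤ → ℝ)).charpoly := by
  have key : ∀ f : ℤ →+* ℝ, (D.map f).charpoly = (C.map f).charpoly := by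
    intro f
    have e1 : D.map f * B.map f = B.map f * C.map f := by
      rw [← Matrix.map_mul, ← Matrix.map_mul, h1]
    have hc' : f c ≠ 0 := by
      rw [eq_intCast f c]; exact_mod_cast hc
    have e2 : ((f c)⁻¹ • T.map f) * B.map f = 1 := by
      rw [Matrix.smul_mul, ← Matrix.map_mul, h2]
      ext i j
      simp only [Matrix.smul_apply, Matrix.map_apply, Matrix.one_apply, smul_eq_mul]
      split_ifs
      · simp only [mul_one]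
        exact inv_mul_cancel₀ hc'
      · simp
    have e3 : B.map f * ((f c)⁻¹ • T.map f) = 1 := mul_eq_one_comm.1 e2
    have e4 : D.map f = B.map f * (C.map f * ((f c)⁻¹ • T.map f)) := by
      rw [← Matrix.mul_assoc, ← e1, Matrix.mul_assoc, e3, Matrix.mul_one]
    rw [e4, Matrix.charpoly_mul_comm, Matrix.mul_assoc, e2, Matrix.mul_one]
  exact key (Int.castRingHom ℝ)

theorem check1 : ∀ i j : Fin 20, (∑ k, (D1 i k : ℤ) * mat B1 k j) = ∑ k, mat B1 i k * mat Cm k j := by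
  decide +kernel

theorem check1' : ∀ i j : Fin 20, (∑ k, mat T1 i k * mat B1 k j) = if i = j then 28056 else 0 := by
  decide +kernel

theorem check2 : ∀ i j : Fin 20, (∑ k, (D2 i k : ℤ) * mat B2 k j) = ∑ k, mat B2 i k * mat Cm k j := by
  decide +kernel

theorem check2' : ∀ i j : Fin 20, (∑ k, mat T2 i k * mat B2 k j) = if i = j then 42 else 0 := by
  decide +kernel

theorem cp1 : (distMatrix G1).charpoly = ((mat Cm).map (Int.cast : ℤ → ℝ)).charpoly := by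
  rw [← charpoly_of (Matrix.of fun i j => (D1 i j : ℤ)) (mat B1) (mat T1) (mat Cm) 28056 (by norm_num)
    (by ext i j; simp only [Matrix.mul_apply, Matrix.of_apply]; exact check1 i j)
    (by ext i j; simp only [Matrix.mul_apply, Matrix.smul_apply, Matrix.one_apply, smul_eq_mul,
          mul_ite, mul_one, mul_zero]; exact check1' i j)]
  congr 1
  ext i j
  simp [distMatrix, (dist1 i j).2]

theorem cp2 : (distMatrix G2).charpoly = ((mat Cm).map (Int.cast : ℤ → ℝ)).charpoly := by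
  rw [← charpoly_of (Matrix.of fun i j => (D2 i j : ℤ)) (mat B2) (mat T2) (mat Cm) 42 (by norm_num)
    (by ext i j; simp only [Matrix.mul_apply, Matrix.of_apply]; exact check2 i j)
    (by ext i j; simp only [Matrix.mul_apply, Matrix.smul_apply, Matrix.one_apply, smul_eq_mul,
          mul_ite, mul_one, mul_zero]; exact check2' i j)]
  congr 1
  ext i j
  simp [distMatrix, (dist2 i j).2]

/-- There are two connected graphs on 20 vertices with the same distance spectrum (their distance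
matrices have the same characteristic polynomial), one bipartite and the other not. -/
theorem result : ∃ G H : SimpleGraph (Fin 20), G.Connected ∧ H.Connected ∧
    (distMatrix G).charpoly = (distMatrix H).charpoly ∧ G.IsBipartite ∧ ¬ H.IsBipartite :=
  ⟨G2, G1, conn2, conn1, cp2.trans cp1.symm, bip2, nbip1⟩

end Pool.Agent.Results.MP_69260a_co.DistCospectral
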